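import Pool.Agent.H16.FK.TargetsA

/-!
# The classes of the hub coordinates
-/

set_option autoImplicit false

namespace Pool.Agent.H19.FKI

open Set Pool.Agent.H75.HCI Pool.Agent.H16.FK

theorem pf_CLE : T_CLE := by
  intro kx k L T
  obtain ⟨R, hR⟩ : ∃ R : Fin kx → Fin kx → Prop, R = fun b b' => b = b' ∨
      ∃ J, BG T J ∧ b ∈ J ∧ b' ∈ J := ⟨_, rfl⟩
  have heq : Equivalence R := by
    rw [hR]
    refine ⟨fun b => Or.inl rfl, ?_, ?_⟩
    · rintro b b' (h | ⟨J, h1, h2, h3⟩)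
      · exact Or.inl h.symm
      · exact Or.inr ⟨J, h1, h3, h2⟩
    · rintro b b' b'' (h | ⟨J, h1, h2, h3⟩) (h' | ⟨J', h1', h2', h3'⟩)
      · exact Or.inl (h.trans h')
      · exact Or.inr ⟨J', h1', by rw [h]; exact h2', h3'⟩
      · exact Or.inr ⟨J, h1, h2, by rw [← h']; exact h3⟩
      · rcases h1.2 J' h1'.1 with h4 | h4
        · exact Or.inr ⟨J, h1, h2, h4.mem_iff.1 h3'⟩
        · exact absurd h3 (fun h5 => h4 h2' h5)
  obtain ⟨s, hs⟩ : ∃ s : Setoid (Fin kx), s = ⟨R, heq⟩ := ⟨_, rfl⟩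
  refine ⟨fun b => (Quotient.mk s b).out, fun b b' => ?_⟩
  have h1 : (Quotient.mk s b).out = (Quotient.mk s b').out ↔ R b b' := by
    rw [Quotient.out_inj, Quotient.eq, hs]
    rfl
  rw [h1, hR]

end Pool.Agent.H19.FKI
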