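import Pool.Agent.H19.FKI.EVB

/-!
# Split rows of the first chunk and its hub
-/

set_option autoImplicit false

namespace Pool.Agent.H19.FKI

open Set Pool.Agent.H75.HCI Pool.Agent.H41.HI Pool.Agent.H71.HCI Pool.Agent.H16.FK

theorem pf_EV3 (hT : T_TDV) : T_EV3 := by
  intro C kc ku k M D hM b w
  have hP : Prg (∅ : Set (ℕ × ℕ × ℕ)) [(0, 0, 0), (0, 1, 0), (0, 1, 1), (0, 2, 0)] := by
    refine ⟨?_, ?_, ?_, ?_⟩
    · simp [ilt]
    · simp
    · simp
    · simp
  have h := hT C kc ku k M D hM (hubA 0 ++ srow 0 (bh b)) _ hP ?_ st0 w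
  · rw [ev_s0] at h
    filter_upwards [h] with j hj
    rw [ev_s1] at hj
    refine typ_eq ?_
    rw [ev_prU]
    change ∀ᶠ x in (D.V j : Filter (Fin k → ℕ)), ∀ᶠ y in (D.V j : Filter (Fin k → ℕ)),
      ∀ᶠ u in (D.U j : Filter (Fin ku → ℕ)),
        M ((cv1 D j w).map (Sum.elim id (Sum.elim (fun i => if b i then y i else x i) u))) = _
    filter_upwards [hj] with x hx
    rw [ev_s1] at hx
    filter_upwards [hx] with y hy
    rw [ev_s2] at hy
    filter_upwards [hy] with u hu
    rw [ev_nil] at hu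
    rw [← hu]
    congr 1
    refine (cv_eq D j w _ _ _ u ?_ ?_ ?_).symm
    · intro b
      simp [s0, s1, s2]
    · intro b
      simp [s0, s1, s2]
    · intro y
      by_cases hb : b y
      · simp [s0, s1, s2, bh, hb]
      · simp [s0, s1, s2, bh, hb]
  · intro p hp
    rw [List.mem_append] at hp
    rcases hp with hp | hp
    · obtain ⟨b, -, rfl⟩ := List.mem_map.1 hp
      unfold itp
      by_cases hb : b.val < kc
      · simp [hb]
      · simp [hb]
    · obtain ⟨y, -, rfl⟩ := List.mem_map.1 hp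
      by_cases hb : b y
      · simp [itp, bh, hb]
      · simp [itp, bh, hb]

end Pool.Agent.H19.FKI
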