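import Pool.Agent.H16.FK.TargetsB

/-!
# Steps of programs
-/

set_option autoImplicit false

namespace Pool.Agent.H19.FKI

open Set Pool.Agent.H75.HCI Pool.Agent.H41.HI Pool.Agent.H71.HCI Pool.Agent.H16.FK

variable {C : Type} {kc ku k : ℕ}

/-- The state after the start of the chunk `i`. -/
def s0 (D : Dat kc ku k) (i j : ℕ) (st : Sta kc ku k) : Sta kc ku k :=
  ⟨Function.update st.j i j, fun p =>
      if p.1 = i then
        Sum.elim (fun b => Fin.addCases (fun b' => D.c j b') (fun _ => st.pt p) b)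
          (fun _ => st.pt p) p.2
      else st.pt p⟩

/-- The state after a row. -/
def s1 (i m : ℕ) (y : Fin k → ℕ) (st : Sta kc ku k) : Sta kc ku k :=
  ⟨st.j, fun p =>
      if p.1 = i then
        Sum.elim (fun _ => st.pt p) (fun q => if q.1 = m then y q.2 else st.pt p) p.2
      else st.pt p⟩

/-- The state after the last hub points. -/
def s2 (i : ℕ) (y : Fin ku → ℕ) (st : Sta kc ku k) : Sta kc ku k :=
  ⟨st.j, fun p =>
      if p.1 = i then
        Sum.elim (fun b => Fin.addCases (fun _ => st.pt p) (fun b' => y b') b)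
          (fun _ => st.pt p) p.2
      else st.pt p⟩

lemma ev_s0 (D : Dat kc ku k) (i : ℕ) (σ : List (ℕ × ℕ × ℕ)) (st : Sta kc ku k)
    {p : Sta kc ku k → Prop} :
    (∀ᶠ s in (run D ((i, 0, 0) :: σ) st : Filter (Sta kc ku k)), p s) ↔
      ∀ᶠ j in (D.UU : Filter ℕ), ∀ᶠ s in (run D σ (s0 D i j st) : Filter (Sta kc ku k)), p s := by
  change (∀ᶠ s in ((step D (i, 0, 0) st).bind (run D σ) : Filter (Sta kc ku k)), p s) ↔ _
  unfold step
  rw [if_pos rfl]
  exact Iff.rfl

lemma ev_s1 (D : Dat kc ku k) (i m : ℕ) (σ : List (ℕ × ℕ × ℕ)) (st : Sta kc ku k)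
    {p : Sta kc ku k → Prop} :
    (∀ᶠ s in (run D ((i, 1, m) :: σ) st : Filter (Sta kc ku k)), p s) ↔
      ∀ᶠ y in (D.V (st.j i) : Filter (Fin k → ℕ)),
        ∀ᶠ s in (run D σ (s1 i m y st) : Filter (Sta kc ku k)), p s := by
  change (∀ᶠ s in ((step D (i, 1, m) st).bind (run D σ) : Filter (Sta kc ku k)), p s) ↔ _
  unfold step
  rw [if_neg (by simp), if_pos rfl]
  exact Iff.rfl

lemma ev_s2 (D : Dat kc ku k) (i : ℕ) (σ : List (ℕ × ℕ × ℕ)) (st : Sta kc ku k)
    {p : Sta kc ku k → Prop} :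
    (∀ᶠ s in (run D ((i, 2, 0) :: σ) st : Filter (Sta kc ku k)), p s) ↔
      ∀ᶠ y in (D.U (st.j i) : Filter (Fin ku → ℕ)),
        ∀ᶠ s in (run D σ (s2 i y st) : Filter (Sta kc ku k)), p s := by
  change (∀ᶠ s in ((step D (i, 2, 0) st).bind (run D σ) : Filter (Sta kc ku k)), p s) ↔ _
  unfold step
  rw [if_neg (by simp), if_neg (by simp)]
  exact Iff.rfl

lemma ev_nil (D : Dat kc ku k) (st : Sta kc ku k) {p : Sta kc ku k → Prop} :
    (∀ᶠ s in (run D [] st : Filter (Sta kc ku k)), p s) ↔ p st := by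
  change (∀ᶠ s in ((pure st : Ultrafilter (Sta kc ku k)) : Filter (Sta kc ku k)), p s) ↔ _
  rw [Ultrafilter.coe_pure]
  exact Filter.eventually_pure

/-- The points of marks, hub and a row in terms of `cv1`. -/
lemma cv_eq (D : Dat kc ku k) (j : ℕ) (w : List ℕ) (pt : Idx (kc + ku) k → ℕ)
    (rp : Fin k → Idx (kc + ku) k) (x : Fin k → ℕ) (u : Fin ku → ℕ)
    (h1 : ∀ b, pt (0, .inl (Fin.castAdd ku b)) = D.c j b)
    (h2 : ∀ b, pt (0, .inl (Fin.natAdd kc b)) = u b) (h3 : ∀ y, pt (rp y) = x y) :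
    sel (D.z ++ (hubA 0 ++ (List.finRange k).map rp).map pt) w =
      (cv1 D j w).map (Sum.elim id (Sum.elim x u)) := by
  unfold cv1
  rw [← sel_map]
  congr 1
  simp only [List.map_append, List.map_map, hubA, hub, List.append_assoc]
  congr 1
  · have : (Sum.elim id (Sum.elim x u) ∘ Sum.inl : ℕ → ℕ) = id := rfl
    rw [this, List.map_id]
  · congr 1
    · refine List.map_congr_left fun b _ => ?_
      change pt (0, .inl b) = Sum.elim id (Sum.elim x u) (Fin.addCases _ _ b)
      refine Fin.addCases (fun b' => ?_) (fun b' => ?_) b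
      · rw [Fin.addCases_left, h1]
        rfl
      · rw [Fin.addCases_right, h2]
        rfl
    · refine List.map_congr_left fun b _ => ?_
      exact h3 b

end Pool.Agent.H19.FKI
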