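import Pool.Agent.H16.FK.TargetsA

/-!
# The nonsplit case with symmetric far rows
-/

set_option autoImplicit false

namespace Pool.Agent.H19.FKI

open Set Pool.Agent.H75.HCI Pool.Agent.H16.FK

theorem pf_NSP (h1 : T_CLE) (h2 : T_RB3) (h3 : T_AT) : T_NSP := by
  intro kx k L T hA hk hc hl hf
  obtain ⟨cl, hcl⟩ := h1 kx k L T
  obtain ⟨In, hIn, hS⟩ := h2 kx k L T cl hA hk hl hcl hc
  exact h3 kx k L T cl In hk hA.pat hA.ft hf hIn hS 0 0 1 Nat.zero_lt_one

end Pool.Agent.H19.FKI
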