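import Pool.Agent.H16.FK.TargetsA

/-!
# The rows are bags
-/

set_option autoImplicit false

namespace Pool.Agent.H19.FKI

open Set Pool.Agent.H75.HCI Pool.Agent.H16.FK

section

variable {kx k : ℕ}

/-- the map which moves the chunk `0` to the chunk `i` and the row `j` to the row `a + j` -/
def mvr (kx k i a : ℕ) (p : Idx kx k) : Idx kx k :=
  (i, p.2.elim .inl fun u => .inr (a + u.1, u.2))

theorem mvr_inl (i a c : ℕ) (b : Fin kx) : mvr kx k i a (c, .inl b) = (i, .inl b) := rfl

theorem mvr_inr (i a c m : ℕ) (y : Fin k) :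
    mvr kx k i a (c, .inr (m, y)) = (i, .inr (a + m, y)) := rfl

theorem mvr_pat (i a : ℕ) : PatOn (mvr kx k i a) {p | p.1 = 0} := by
  refine ⟨?_, ?_, ?_⟩
  · rintro ⟨c, (b | ⟨m, y⟩)⟩ -
    · rfl
    · rfl
  · intro p hp q hq
    have h1 : p.1 = 0 := hp
    have h2 : q.1 = 0 := hq
    rw [h1, h2]
    exact ⟨fun h => absurd h (lt_irrefl _), fun h => absurd h (lt_irrefl _)⟩
  · rintro ⟨c, z⟩ hp ⟨c', z'⟩ hq - u u' v v' h1 h2 h3 h4
    simp only at h1 h2
    rw [h1] at h3
    rw [h2] at h4
    have e1 : u'.1 = a + u.1 := by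
      have h5 : (Sum.inr (a + u.1, u.2) : Fin kx ⊕ ℕ × Fin k) = Sum.inr u' := h3
      rw [← Sum.inr_injective h5]
    have e2 : v'.1 = a + v.1 := by
      have h5 : (Sum.inr (a + v.1, v.2) : Fin kx ⊕ ℕ × Fin k) = Sum.inr v' := h4
      rw [← Sum.inr_injective h5]
    rw [e1, e2]
    omega

theorem hub_map (i a : ℕ) (b : List (Fin kx)) :
    (hub (k := k) 0 b).map (mvr kx k i a) = hub i b := by
  unfold hub
  rw [List.map_map]
  rfl

theorem row_map (i a j : ℕ) : (row (kx := kx) (k := k) 0 j).map (mvr kx k i a) = row i (a + j) := by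
  unfold row prt
  rw [List.map_map]
  rfl

theorem row_nodup (i m : ℕ) : (row (kx := kx) (k := k) i m).Nodup := by
  unfold row prt
  refine (List.nodup_finRange k).map ?_
  intro y y' h
  simpa using h

theorem mem_row {i m : ℕ} {p : Idx kx k} : p ∈ row (kx := kx) (k := k) i m ↔
    ∃ y, p = (i, .inr (m, y)) := by
  unfold row prt
  rw [List.mem_map]
  constructor
  · rintro ⟨y, -, h⟩
    exact ⟨y, h.symm⟩
  · rintro ⟨y, h⟩
    exact ⟨y, List.mem_finRange y, h.symm⟩

end

theorem pf_RA2 (h : T_RA1) : T_RA2 := by
  intro kx k L T b0 s hA hk hW hs i m hm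
  refine ⟨?_, ?_⟩
  · obtain ⟨a, ha⟩ : ∃ a, a = m - k := ⟨_, rfl⟩
    have has : a + k < s i := by
      have := hs i
      omega
    refine ⟨hub i b0, (List.range (k + 1)).map (fun j => row i (a + j)), ⟨?_, ?_, ?_, ?_, ?_⟩,
      ?_, ?_, ?_⟩
    · unfold hub
      rw [List.length_map]
    · rw [List.length_map, List.length_range]
    · intro D hD
      rw [List.mem_map] at hD
      obtain ⟨j, -, rfl⟩ := hD
      unfold row prt
      rw [List.length_map, List.length_finRange]
    · rw [List.nodup_append]
      refine ⟨?_, ?_, ?_⟩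
      · unfold hub
        refine hW.1.map ?_
        intro b b' hb
        simpa using hb
      · rw [List.nodup_flatten]
        refine ⟨?_, ?_⟩
        · intro l hl
          rw [List.mem_map] at hl
          obtain ⟨j, -, rfl⟩ := hl
          exact row_nodup _ _
        · rw [List.pairwise_map]
          refine List.Pairwise.imp ?_ (List.pairwise_lt_range (n := k + 1))
          intro j j' hj p hp hp'
          rw [mem_row] at hp hp'
          obtain ⟨y, rfl⟩ := hp
          obtain ⟨y', h'⟩ := hp'
          simp only [Prod.mk.injEq, Sum.inr.injEq, true_and] at h'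
          omega
      · intro p hp q hq hpq
        unfold hub at hp
        rw [List.mem_map] at hp
        obtain ⟨b, -, rfl⟩ := hp
        rw [List.mem_flatten] at hq
        obtain ⟨l, hl, hq⟩ := hq
        rw [List.mem_map] at hl
        obtain ⟨j, -, rfl⟩ := hl
        rw [mem_row] at hq
        obtain ⟨y, rfl⟩ := hq
        simp at hpq
    · have h1 := hA.pat (mvr kx k i a) {p | p.1 = 0} (mvr_pat i a)
        (hub 0 b0 ++ ((List.range (k + 1)).map (row 0)).flatten) (by
          intro p hp
          rw [List.mem_append] at hp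
          rcases hp with hp | hp
          · unfold hub at hp
            rw [List.mem_map] at hp
            obtain ⟨b, -, rfl⟩ := hp
            rfl
          · rw [List.mem_flatten] at hp
            obtain ⟨l, hl, hp⟩ := hp
            rw [List.mem_map] at hl
            obtain ⟨j, -, rfl⟩ := hl
            rw [mem_row] at hp
            obtain ⟨y, rfl⟩ := hp
            rfl)
      rw [← h1, List.map_append, hub_map, List.map_flatten, List.map_map]
      congr 3
      refine List.map_congr_left fun j _ => ?_
      exact (row_map i a j).symm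
    · intro p hp
      unfold hub at hp
      rw [List.mem_map] at hp
      obtain ⟨b, -, rfl⟩ := hp
      intro q hq
      simp at hq
    · intro E hE p hp
      rw [List.mem_map] at hE
      obtain ⟨j, hj, rfl⟩ := hE
      rw [List.mem_range] at hj
      rw [mem_row] at hp
      obtain ⟨y, rfl⟩ := hp
      intro q hq
      simp only [Sum.inr.injEq] at hq
      rw [← hq]
      show a + j < s i
      omega
    · refine ⟨row i m, ?_, List.Perm.refl _⟩
      rw [List.mem_map]
      refine ⟨m - a, List.mem_range.2 (by omega), ?_⟩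
      congr 1
      omega
  · rintro D' ⟨w, Ds, hSF, -, -, E, hE, hED⟩
    by_cases hdis : D'.Disjoint (row i m)
    · exact Or.inr hdis
    · left
      refine hED.symm.trans (h kx k L T b0 hA hk hW w Ds hSF E hE i m ?_)
      intro hM
      apply hdis
      intro p hp hp'
      rw [mem_row] at hp'
      obtain ⟨y, rfl⟩ := hp'
      exact hM y (hED.mem_iff.2 hp)

end Pool.Agent.H19.FKI
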