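import Pool.Agent.H16.FK.TargetsA

/-!
# Split far rows for the enriched types
-/

set_option autoImplicit false

namespace Pool.Agent.H19.FKI

open Set Pool.Agent.H75.HCI Pool.Agent.H16.FK

section

variable {α L : Type}

/-- selection of a block -/
theorem spt_sel (a b c : List α) :
    sel ((a ++ b) ++ c) ((List.range b.length).map fun i => a.length + i) = b := by
  unfold sel
  rw [List.filterMap_map]
  have h1 : ∀ i ∈ List.range b.length, ((fun i => ((a ++ b) ++ c)[i]?) ∘ fun i => a.length + i) i =
      (fun i => b[i]?) i := by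
    intro i hi
    rw [List.mem_range] at hi
    simp only [Function.comp]
    rw [List.getElem?_append_left (by rw [List.length_append]; omega),
      List.getElem?_append_right (by omega)]
    congr 1
    omega
  rw [List.filterMap_congr h1]
  exact sel_range b

theorem spt_sel0 (a b : List α) : sel (a ++ b) (List.range a.length) = a := by
  have h := spt_sel [] a b
  simpa using h

theorem spt_sel2 (a b : List α) :
    sel (a ++ b) ((List.range b.length).map fun i => a.length + i) = b := by
  have h := spt_sel a b []
  simpa using h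

theorem spt_sel_append (l : List α) (w w' : List ℕ) : sel l (w ++ w') = sel l w ++ sel l w' := by
  unfold sel
  rw [List.filterMap_append]

/-- the rearrangement of `a ++ b ++ c` into `a ++ c ++ b` -/
theorem spt_sel3 (a b c : List α) : sel ((a ++ b) ++ c) (List.range a.length ++
    ((List.range c.length).map (fun i => (a ++ b).length + i)) ++
    ((List.range b.length).map fun i => a.length + i)) = (a ++ c) ++ b := by
  rw [spt_sel_append, spt_sel_append, spt_sel2, spt_sel]
  congr 2
  rw [List.append_assoc]
  exact spt_sel0 a (b ++ c)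

end

section

variable {kx k : ℕ} {L : Type}

theorem spt_swap {T : List (Idx kx k) → L} (hT : FTx T) {a b c c' : List (Idx kx k)}
    (hc : c.length = c'.length) (h : T ((a ++ b) ++ c) = T ((a ++ b) ++ c')) :
    T ((a ++ c) ++ b) = T ((a ++ c') ++ b) := by
  have h1 := hT ((a ++ b) ++ c) ((a ++ b) ++ c') (List.range a.length ++
    ((List.range c.length).map (fun i => (a ++ b).length + i)) ++
    ((List.range b.length).map fun i => a.length + i))
    (by simp only [List.length_append, hc]) h
  rw [spt_sel3] at h1
  rw [hc, spt_sel3] at h1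
  exact h1

/-- the chunks from `n` on are shifted -/
def shc (kx k n : ℕ) (p : Idx kx k) : Idx kx k := (if n ≤ p.1 then p.1 + 1 else p.1, p.2)

theorem shc_pat (n : ℕ) : PatOn (shc kx k n) univ := by
  refine ⟨fun p _ => rfl, ?_, ?_⟩
  · intro p _ q _
    unfold shc
    simp only
    split_ifs <;> omega
  · intro p _ q _ hpq u u' v v' h1 h2 h3 h4
    have e1 : p.2 = .inr u' := h3
    have e2 : q.2 = .inr v' := h4
    rw [h1] at e1
    rw [h2] at e2
    rw [Sum.inr_injective e1, Sum.inr_injective e2]

theorem shc_low {n : ℕ} {l : List (Idx kx k)} (hl : Blw n l) : l.map (shc kx k n) = l := by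
  have h1 : ∀ p ∈ l, shc kx k n p = id p := by
    intro p hp
    unfold shc
    rw [if_neg (by have := hl p hp; omega)]
    rfl
  rw [List.map_congr_left h1, List.map_id]

theorem shc_srow (n : ℕ) (c : Fin k → ℕ) :
    (srow (kx := kx) n c).map (shc kx k n) = srow (n + 1) c := by
  unfold srow
  rw [List.map_map]
  refine List.map_congr_left fun y _ => ?_
  simp only [Function.comp]
  unfold shc
  rw [if_pos le_rfl]

theorem shc_frs {n M : ℕ} (h : n ≤ M) (A : List (List (Fin k))) :
    (frs (kx := kx) M A).map (shc kx k n) = frs (M + 1) A := by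
  unfold frs
  rw [List.map_flatten, List.map_map]
  congr 1
  refine List.map_congr_left fun q _ => ?_
  simp only [Function.comp]
  unfold prt
  rw [List.map_map]
  refine List.map_congr_left fun y _ => ?_
  simp only [Function.comp]
  unfold shc
  rw [if_pos h]

theorem spt_bd {l : List (Idx kx k)} {p : Idx kx k} (hp : p ∈ l) : p.1 < bd l := by
  unfold bd
  have h1 : p.1 + 1 ≤ (l.map fun p => p.1 + 1).sum :=
    List.single_le_sum (fun _ _ => Nat.zero_le _) _ (List.mem_map.2 ⟨p, hp, rfl⟩)
  omega

/-- fresh parts in any free chunk -/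
theorem spt_frs (hW : T_TPW) {T : List (Idx kx k) → L} (hA : AX T) {l : List (Idx kx k)} {N : ℕ}
    (hN : ∀ p ∈ l, p.1 ≠ N) {A : List (List (Fin k))} (hg : Good A) :
    T (l ++ frs N A) = TP T l A := by
  have h1 := hW kx k L T hA l (A.zipIdx.map fun q => (N, q.2, q.1)) (by
    rw [List.map_map]
    have h2 : (A.zipIdx.map Prod.snd).Nodup := by
      rw [List.zipIdx_map_snd]
      exact List.nodup_range' ..
    have h3 : (A.zipIdx.map ((fun q : ℕ × ℕ × List (Fin k) => (q.1, q.2.1)) ∘
        fun q : List (Fin k) × ℕ => (N, q.2, q.1))) = (A.zipIdx.map Prod.snd).map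
          fun m => (N, m) := by
      rw [List.map_map]
      rfl
    rw [h3]
    refine h2.map ?_
    intro m m' h
    simpa using h) (by
      intro q hq
      rw [List.mem_map] at hq
      obtain ⟨r, -, rfl⟩ := hq
      intro y hy
      exact hN _ hy rfl) (by
      rw [List.map_map]
      have h3 : (A.zipIdx.map ((fun q : ℕ × ℕ × List (Fin k) => q.2.2) ∘
          fun q : List (Fin k) × ℕ => (N, q.2, q.1))) = A.zipIdx.map Prod.fst := rfl
      rw [h3, List.zipIdx_map_fst]
      exact hg)
  rw [List.map_map, List.map_map] at h1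
  have h3 : (A.zipIdx.map ((fun q : ℕ × ℕ × List (Fin k) => q.2.2) ∘
      fun q : List (Fin k) × ℕ => (N, q.2, q.1))) = A := by
    have h4 : (A.zipIdx.map ((fun q : ℕ × ℕ × List (Fin k) => q.2.2) ∘
      fun q : List (Fin k) × ℕ => (N, q.2, q.1))) = A.zipIdx.map Prod.fst := rfl
    rw [h4, List.zipIdx_map_fst]
  rw [h3] at h1
  exact h1

theorem spt_key (hW : T_TPW) {T : List (Idx kx k) → L} (hA : AX T) (y0 : Fin k) {n : ℕ}
    {l : List (Idx kx k)} (hl : Blw n l) (c : Fin k → ℕ) {A : List (List (Fin k))} (hg : Good A) :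
    TP T (l ++ srow n c) A = T ((l ++ srow (n + 1) c) ++ frs n A) := by
  have hM : n < bd (l ++ srow n c) :=
    spt_bd (p := (n, .inr (c y0, y0))) (List.mem_append.2 (Or.inr (by
      unfold srow
      exact List.mem_map.2 ⟨y0, List.mem_finRange y0, rfl⟩)))
  have hsr : ∀ p ∈ srow (kx := kx) (n + 1) c, p.1 = n + 1 := by
    intro p hp
    unfold srow at hp
    rw [List.mem_map] at hp
    obtain ⟨y, -, rfl⟩ := hp
    rfl
  have h1 : TP T (l ++ srow n c) A = T ((l ++ srow n c) ++ frs (bd (l ++ srow n c)) A) := by
    unfold TP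
    rw [if_pos hg]
  have h2 := hA.pat (shc kx k n) univ (shc_pat n)
    ((l ++ srow n c) ++ frs (bd (l ++ srow n c)) A) (fun _ _ => mem_univ _)
  rw [List.map_append, List.map_append, shc_low hl, shc_srow, shc_frs hM.le] at h2
  rw [h1, ← h2, spt_frs hW hA (N := bd (l ++ srow n c) + 1) ?_ hg,
    ← spt_frs hW hA (N := n) ?_ hg]
  · intro p hp
    rw [List.mem_append] at hp
    rcases hp with hp | hp
    · have := hl p hp
      omega
    · rw [hsr p hp]
      omega
  · intro p hp
    rw [List.mem_append] at hp
    rcases hp with hp | hp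
    · have := hl p hp
      omega
    · rw [hsr p hp]
      omega

end

theorem pf_SPT (hW : T_TPW) : T_SPT := by
  intro kx k L T hA hS
  obtain ⟨c, ⟨y0, y1, hy⟩, hspl⟩ := hS
  refine ⟨c, ⟨y0, y1, hy⟩, fun n l hl => ?_⟩
  funext A
  by_cases hg : Good A
  · have h0 : row (kx := kx) (k := k) n 0 = srow n (fun _ => 0) := rfl
    have h1 : row (kx := kx) (k := k) (n + 1) 0 = srow (n + 1) (fun _ => 0) := rfl
    rw [h0, spt_key hW hA y0 hl _ hg, spt_key hW hA y0 hl _ hg]
    have h2 := hspl (n + 1) (l ++ frs n A) (by
      intro p hp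
      rw [List.mem_append] at hp
      rcases hp with hp | hp
      · have := hl p hp
        omega
      · unfold frs at hp
        rw [List.mem_flatten] at hp
        obtain ⟨l', hl', hp⟩ := hp
        rw [List.mem_map] at hl'
        obtain ⟨q, -, rfl⟩ := hl'
        unfold prt at hp
        rw [List.mem_map] at hp
        obtain ⟨y, -, rfl⟩ := hp
        exact Nat.lt_succ_self _)
    rw [h1] at h2
    exact spt_swap hA.ft (by unfold srow; rw [List.length_map, List.length_map]) h2
  · unfold TP
    rw [if_neg hg, if_neg hg]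
    exact hspl n l hl

end Pool.Agent.H19.FKI
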