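import Pool.Agent.H16.FK.TargetsA

/-!
# The nonsplit case for the types themselves
-/

set_option autoImplicit false

namespace Pool.Agent.H19.FKI

open Set Pool.Agent.H75.HCI Pool.Agent.H16.FK

theorem pf_TOPB (h1 : T_TPX) (h2 : T_LR) (h3 : T_NSP) (h4 : T_FST) (h5 : T_LKN) : T_TOPB := by
  intro kx k L T hA hk hc hn hf
  have hc' : Coll (TP T) := by
    intro i0 N
    obtain ⟨s, s', g, a1, a2, a3, a4, a5, a6, a7, a8⟩ := hc i0 (max N 1)
    exact ⟨s, s', g, a1, a2, fun i => (le_max_left _ _).trans (a3 i),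
      fun i => (le_max_left _ _).trans (a4 i), a5, a6,
      h2 kx k L T s s' g hA hk (fun i => (le_max_right _ _).trans (a3 i)) a7, a8⟩
  have h := h3 kx k _ (TP T) (h1 kx k L T hA) hk hc' (h5 kx k L T hA hn)
    (fun q => h4 kx k L T hA q (hf q))
  have hg : Good ([] : List (List (Fin k))) := fun a ha => absurd ha (List.not_mem_nil)
  have h6 : ∀ l : List (Idx kx k), TP T l [] = T l := by
    intro l
    unfold TP
    rw [if_pos hg]
    unfold frs
    simp
  rw [← h6, ← h6, h]

end Pool.Agent.H19.FKI
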